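import Pool.Agent.H683R3.DR.Defs

namespace Pool.Agent.H683R3.DR

open Finset Filter

theorem tendsto_size : Tendsto Nat.size atTop atTop := by
  refine tendsto_atTop.2 fun b => ?_
  filter_upwards [eventually_ge_atTop (2 ^ b)] with k hk
  exact (Nat.lt_size.2 hk).le

theorem core (h1 : S_T1) (h2 : S_T2) (h4 : S_T4) (h6 : S_T6) (h7 : S_T7) (h8 : S_T8) :
    S_Core := by
  have h6' := tendsto_size.eventually h6
  filter_upwards [h6', h7, h8, eventually_ge_atTop 2] with k h6k h7k h8k hk2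
  obtain ⟨P, hPp, hPr, hP3, hPinj, hPle⟩ := h6k
  obtain ⟨q, hq, hqinj⟩ := h7k
  set r := Nat.size k with hr
  have hkr : k < 2 ^ r := Nat.lt_size_self k
  have hr2 : 2 ≤ r := by
    have : 1 < Nat.size k := Nat.lt_size.2 (by simpa using hk2)
    omega
  have D : Data k r (4 * k) P q :=
    ⟨hkr, by omega, hPp, hPr, hP3, hPinj, fun x hx => (hq x hx).1, fun x hx => (hq x hx).2.1, hqinj⟩
  obtain ⟨n0, M, hn0, hM, hMle, hkM, hmod⟩ := h2 k r (4 * k) P q (k ^ 2)
    ⌊((Nat.size k : ℕ) : ℝ) ^ (3 / 2 : ℝ)⌋₊ D (fun x hx => (hq x hx).2.2)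
    (fun j hj => Nat.le_floor (hPle j hj)) (Nat.one_le_pow _ _ (by omega)) (by omega) hr2
  obtain ⟨t, ht, hsq⟩ := h4 k (4 * k) M n0 (by omega) le_rfl hkM hn0
  have hM1 : 1 ≤ M := by omega
  have hcong : n0 + (t + 1) * M ≡ n0 [MOD M] := by
    simp [Nat.ModEq]
  obtain ⟨hs, he⟩ := hmod _ hcong
  have G : Good k r (4 * k) (n0 + (t + 1) * M) P q := by
    refine ⟨hs, he, ?_⟩
    intro l hl hYl hlq i hi
    refine hsq l hl hYl ?_ i hi
    intro hlM
    rcases hM l hl hlM with h | ⟨x, hx, hxl⟩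
    · omega
    · exact hlq x hx hxl
  refine ⟨n0 + (t + 1) * M, ?_, ?_, ?_⟩
  · have hle : n0 + (t + 1) * M ≤ 2 * M ^ 4 := by
      have h1 : t + 1 ≤ M ^ 3 := ht
      have h2 : (t + 1) * M ≤ M ^ 3 * M := Nat.mul_le_mul_right _ h1
      have h3 : M ≤ M ^ 4 := Nat.le_self_pow (by norm_num) M
      have h4 : M ^ 3 * M = M ^ 4 := by ring
      omega
    have hpos : (0 : ℝ) < ((n0 + (t + 1) * M : ℕ) : ℝ) := by
      have : 0 < (t + 1) * M := Nat.mul_pos (by omega) (by omega)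
      exact_mod_cast (by omega : 0 < n0 + (t + 1) * M)
    have hM0 : (0 : ℝ) < M := by exact_mod_cast hM1
    have : Real.log ((n0 + (t + 1) * M : ℕ) : ℝ) ≤ Real.log (2 * (M : ℝ) ^ 4) :=
      Real.log_le_log hpos (by exact_mod_cast hle)
    rw [Real.log_mul (by norm_num) (by positivity), Real.log_pow] at this
    have h8' := h8k M hMle hM1
    push_cast at this
    push_cast
    linarith
  · have : 0 < (t + 1) * M := Nat.mul_pos (by omega) (by omega)
    omega
  · exact h1 k r (4 * k) _ P q D G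

end Pool.Agent.H683R3.DR
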