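import Mathlib

/-!
# Project DR: long runs of distinct values of the divisor function (MP_f6f0d4_nt)

Definitions and the statements (Props) of the tasks.
-/

namespace Pool.Agent.H683R3.DR

open Finset Filter

/-- `d(n), d(n+1), …, d(n+k)` are pairwise distinct. -/
def RunDistinct (n k : ℕ) : Prop :=
  ∀ i ≤ k, ∀ j ≤ k, (n + i).divisors.card = (n + j).divisors.card → i = j

/-- The pairs `(i, j)` with `1 ≤ i ≤ k`, `j < r` such that the `j`-th binary digit of `i` is one. -/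
def prs (k r : ℕ) : Finset (ℕ × ℕ) :=
  ((Icc 1 k) ×ˢ (range r)).filter (fun x => x.1.testBit x.2 = true)

/-- The primes `P j` (which code the digits) and `q (i, j)` (the large primes). -/
structure Data (k r Y : ℕ) (P : ℕ → ℕ) (q : ℕ × ℕ → ℕ) : Prop where
  kr : k < 2 ^ r
  kY : k ≤ Y
  Pp : ∀ j < r, (P j).Prime
  Pr : ∀ j < r, r < P j
  P3 : ∀ j < r, 3 ≤ P j
  Pinj : ∀ j < r, ∀ j' < r, P j = P j' → j = j'
  qp : ∀ x ∈ prs k r, (q x).Prime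
  qY : ∀ x ∈ prs k r, Y < q x
  qinj : ∀ x ∈ prs k r, ∀ y ∈ prs k r, q x = q y → x = y

/-- `n` has the required local structure. -/
structure Good (k r Y n : ℕ) (P : ℕ → ℕ) (q : ℕ × ℕ → ℕ) : Prop where
  small : ∀ l, l.Prime → l ≤ Y → l ^ r ∣ n
  exact : ∀ x ∈ prs k r, (n + x.1).factorization (q x) = P x.2 - 1
  large : ∀ l, l.Prime → Y < l → (∀ x ∈ prs k r, l ≠ q x) → ∀ i ∈ Icc 1 k, ¬ l ^ 2 ∣ n + i

/-- T1: the divisor function separates `n+1, …, n+k`. -/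
def S_T1 : Prop := ∀ (k r Y n : ℕ) (P : ℕ → ℕ) (q : ℕ × ℕ → ℕ),
  Data k r Y P q → Good k r Y n P q →
  ∀ i ∈ Icc 1 k, ∀ i' ∈ Icc 1 k, (n + i).divisors.card = (n + i').divisors.card → i = i'

/-- T2: Chinese remainder theorem. -/
def S_T2 : Prop := ∀ (k r Y : ℕ) (P : ℕ → ℕ) (q : ℕ × ℕ → ℕ) (Q R : ℕ),
  Data k r Y P q → (∀ x ∈ prs k r, q x ≤ Q) → (∀ j < r, P j ≤ R) → 1 ≤ Q → 3 ≤ Y → 2 ≤ r →
  ∃ n0 M : ℕ, n0 < M ∧ (∀ l, l.Prime → l ∣ M → l ≤ Y ∨ ∃ x ∈ prs k r, l = q x) ∧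
    M ≤ 4 ^ (Y * r) * (Q ^ R) ^ (k * r) ∧ 4 * k < M ∧
    ∀ m, m ≡ n0 [MOD M] → (∀ l, l.Prime → l ≤ Y → l ^ r ∣ m) ∧
      ∀ x ∈ prs k r, (m + x.1).factorization (q x) = P x.2 - 1

/-- T3: counting in a residue class. -/
def S_T3 : Prop := ∀ (T m a M : ℕ), 0 < m → Nat.Coprime m M →
  ((range T).filter (fun t => m ∣ a + t * M)).card ≤ T / m + 1

/-- T4: the sieve of squares of large primes (uses T3). -/
def S_T4 : Prop := ∀ (k Y M n0 : ℕ), 1 ≤ k → 4 * k ≤ Y → 4 * k < M → n0 < M →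
  ∃ t < M ^ 3, ∀ l, l.Prime → Y < l → ¬ l ∣ M → ∀ i ∈ Icc 1 k, ¬ l ^ 2 ∣ n0 + (t + 1) * M + i

/-- T5: many primes. -/
def S_T5 : Prop := ∀ᶠ x : ℕ in atTop, (x : ℝ) ^ (4 / 5 : ℝ) ≤ Nat.primeCounting x

/-- T6: the small coding primes (uses T5). -/
def S_T6 : Prop := ∀ᶠ r : ℕ in atTop, ∃ P : ℕ → ℕ, (∀ j < r, (P j).Prime) ∧ (∀ j < r, r < P j) ∧
  (∀ j < r, 3 ≤ P j) ∧ (∀ j < r, ∀ j' < r, P j = P j' → j = j') ∧
  ∀ j < r, (P j : ℝ) ≤ (r : ℝ) ^ (3 / 2 : ℝ)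

/-- T7: the large primes (uses T5). -/
def S_T7 : Prop := ∀ᶠ k : ℕ in atTop, ∃ q : ℕ × ℕ → ℕ,
  (∀ x ∈ prs k (Nat.size k), (q x).Prime ∧ 4 * k < q x ∧ q x ≤ k ^ 2) ∧
  ∀ x ∈ prs k (Nat.size k), ∀ y ∈ prs k (Nat.size k), q x = q y → x = y

/-- T8: size of the modulus. -/
def S_T8 : Prop := ∀ᶠ k : ℕ in atTop, ∀ M : ℕ,
  M ≤ 4 ^ (4 * k * Nat.size k) *
    ((k ^ 2) ^ ⌊((Nat.size k : ℕ) : ℝ) ^ (3 / 2 : ℝ)⌋₊) ^ (k * Nat.size k) → 1 ≤ M →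
  4 * Real.log M + Real.log 2 ≤ k * Real.log k ^ (15 / 4 : ℝ)

/-- The core statement: for large `k` there is `n` with `log n ≤ k (log k)^(15/4)` such that
`d(n+1), …, d(n+k)` are pairwise distinct. -/
def S_Core : Prop := ∀ᶠ k : ℕ in atTop, ∃ n : ℕ, Real.log n ≤ k * Real.log k ^ (15 / 4 : ℝ) ∧
  0 < n ∧
  ∀ i ∈ Icc 1 k, ∀ i' ∈ Icc 1 k, (n + i).divisors.card = (n + i').divisors.card → i = i'

/-- T9: from the core statement to the final form. -/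
def S_T9 : Prop := S_Core → ∀ᶠ N : ℕ in atTop, ∃ n k : ℕ, 1 ≤ n ∧ n ≤ N ∧ RunDistinct n k ∧
  Real.log N / Real.log (Real.log N) ^ 4 ≤ k

/-- T10: for every `n ≥ 1` the lengths of the runs starting at `n` are bounded. -/
def S_T10 : Prop := ∀ n : ℕ, BddAbove {k | RunDistinct n k}

end Pool.Agent.H683R3.DR
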