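import Mathlib

namespace Pool.Agent.H683R3.DR

open Filter Topology

theorem exponent_ge_one (K : ℕ → ℕ)
    (h : ∀ᶠ N : ℕ in atTop, Real.log N / Real.log (Real.log N) ^ 4 ≤ K N) (c : ℝ)
    (hc : Tendsto (fun N : ℕ => Real.log (K N) / Real.log (Real.log N)) atTop (𝓝 c)) : 1 ≤ c := by
  have hL : Tendsto (fun N : ℕ => Real.log (Real.log N)) atTop atTop :=
    Real.tendsto_log_atTop.comp (Real.tendsto_log_atTop.comp tendsto_natCast_atTop_atTop)
  have hlow : Tendsto (fun N : ℕ => 1 - 4 * (Real.log (Real.log (Real.log N)) /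
      Real.log (Real.log N))) atTop (𝓝 (1 - 4 * 0)) := by
    have h0 : Tendsto (fun x : ℝ => Real.log x / x) atTop (𝓝 0) := by
      have := Real.isLittleO_log_id_atTop.tendsto_div_nhds_zero
      simpa using this
    exact ((h0.comp hL).const_mul 4).const_sub 1
  rw [mul_zero, sub_zero] at hlow
  refine le_of_tendsto_of_tendsto hlow hc ?_
  have hN1 : ∀ᶠ N : ℕ in atTop, (1 : ℝ) ≤ Real.log (Real.log N) := hL.eventually_ge_atTop 1
  have hN2 : ∀ᶠ N : ℕ in atTop, (1 : ℝ) ≤ Real.log N :=
    (Real.tendsto_log_atTop.comp tendsto_natCast_atTop_atTop).eventually_ge_atTop 1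
  filter_upwards [h, hN1, hN2] with N hN h1 h2
  have hL0 : 0 < Real.log (Real.log N) := by linarith
  have hpos : 0 < Real.log N / Real.log (Real.log N) ^ 4 := by positivity
  have h3 := Real.log_le_log hpos hN
  rw [Real.log_div (by positivity) (by positivity), Real.log_pow] at h3
  rw [le_div_iff₀ hL0]
  have e : (1 - 4 * (Real.log (Real.log (Real.log N)) / Real.log (Real.log N))) *
      Real.log (Real.log N) = Real.log (Real.log N) - 4 * Real.log (Real.log (Real.log N)) := by
    field_simp
  rw [e]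
  push_cast at h3
  linarith

end Pool.Agent.H683R3.DR
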