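import Pool.Agent.H683R3.DR.Defs

namespace Pool.Agent.H683R3.DR

open Finset Filter

/-- `k(n)`: the largest `k` such that `d(n), …, d(n+k)` are pairwise distinct. -/
noncomputable def runLength (n : ℕ) : ℕ := sSup {k | RunDistinct n k}

/-- `K(N) = max_{1 ≤ n ≤ N} k(n)`. -/
noncomputable def maxRun (N : ℕ) : ℕ := (Finset.Icc 1 N).sup runLength

theorem final (h10 : S_T10)
    (h : ∀ᶠ N : ℕ in atTop, ∃ n k : ℕ, 1 ≤ n ∧ n ≤ N ∧ RunDistinct n k ∧
      Real.log N / Real.log (Real.log N) ^ 4 ≤ k) :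
    (∀ n, IsGreatest {k | RunDistinct n k} (runLength n)) ∧
    (∀ N, ∀ n ∈ Finset.Icc 1 N, runLength n ≤ maxRun N) ∧
    (∀ N, 1 ≤ N → ∃ n ∈ Finset.Icc 1 N, runLength n = maxRun N) ∧
    ∀ᶠ N : ℕ in atTop, Real.log N / Real.log (Real.log N) ^ 4 ≤ maxRun N := by
  have hne : ∀ n, ({k | RunDistinct n k} : Set ℕ).Nonempty := by
    intro n
    refine ⟨0, ?_⟩
    intro i hi j hj _
    omega
  have hg : ∀ n, IsGreatest {k | RunDistinct n k} (runLength n) := fun n =>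
    ⟨Nat.sSup_mem (hne n) (h10 n), fun k hk => le_csSup (h10 n) hk⟩
  refine ⟨hg, fun N n hn => Finset.le_sup hn, ?_, ?_⟩
  · intro N hN
    obtain ⟨n, hn, hn'⟩ := Finset.exists_mem_eq_sup (Finset.Icc 1 N) ⟨1, by simp [hN]⟩ runLength
    exact ⟨n, hn, hn'.symm⟩
  · filter_upwards [h] with N hN
    obtain ⟨n, k, h1, h2, h3, h4⟩ := hN
    refine h4.trans ?_
    exact_mod_cast ((hg n).2 h3).trans (Finset.le_sup (f := runLength) (Finset.mem_Icc.2 ⟨h1, h2⟩))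

end Pool.Agent.H683R3.DR
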