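import Pool.Agent.H683R3.DR.Defs

namespace Pool.Agent.H683R3.DR

open Finset Filter

theorem dvd_card_divisors {m p : ℕ} (hm : m ≠ 0) (hp : p.Prime) :
    p ∣ m.divisors.card ↔ ∃ l ∈ m.primeFactors, p ∣ m.factorization l + 1 := by
  rw [Nat.card_divisors hm, hp.prime.dvd_finsetProd_iff]

theorem key {k r Y n : ℕ} {P : ℕ → ℕ} {q : ℕ × ℕ → ℕ} (D : Data k r Y P q) (G : Good k r Y n P q)
    {i j : ℕ} (hi : i ∈ Icc 1 k) (hj : j < r) :
    P j ∣ (n + i).divisors.card ↔ i.testBit j = true := by
  have hi' := Finset.mem_Icc.1 hi
  have hn0 : n + i ≠ 0 := by omega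
  have hpj := D.Pp j hj
  rw [dvd_card_divisors hn0 hpj]
  constructor
  · rintro ⟨l, hl, hdvd⟩
    have hlp : l.Prime := Nat.prime_of_mem_primeFactors hl
    have hln : l ∣ n + i := Nat.dvd_of_mem_primeFactors hl
    have hv1 : 1 ≤ (n + i).factorization l := (hlp.dvd_iff_one_le_factorization hn0).1 hln
    by_cases hlY : l ≤ Y
    · exfalso
      have hlr := G.small l hlp hlY
      have hvr : (n + i).factorization l < r := by
        by_contra hcon
        push Not at hcon
        have h1 : l ^ r ∣ n + i := (hlp.pow_dvd_iff_le_factorization hn0).2 hcon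
        have h2 : l ^ r ∣ i := (Nat.dvd_add_right hlr).1 h1
        have h3 : l ^ r ≤ i := Nat.le_of_dvd (by omega) h2
        have h4 : 2 ^ r ≤ l ^ r := Nat.pow_le_pow_left hlp.two_le r
        have := D.kr
        omega
      have h5 := Nat.le_of_dvd (by omega) hdvd
      have h6 := D.Pr j hj
      omega
    · push Not at hlY
      by_cases hq : ∃ x ∈ prs k r, l = q x
      · obtain ⟨x, hx, rfl⟩ := hq
        have hx' := hx
        simp only [prs, Finset.mem_filter, Finset.mem_product, Finset.mem_Icc,
          Finset.mem_range] at hx'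
        have hex := G.exact x hx
        have hP3 := D.P3 x.2 hx'.1.2
        by_cases hxi : x.1 = i
        · rw [hxi] at hex
          rw [hex] at hdvd
          have hP : P x.2 - 1 + 1 = P x.2 := by omega
          rw [hP] at hdvd
          have := (Nat.prime_dvd_prime_iff_eq hpj (D.Pp x.2 hx'.1.2)).1 hdvd
          have hjj := D.Pinj j hj x.2 hx'.1.2 this
          rw [hjj, ← hxi]
          exact hx'.2
        · exfalso
          have hnx0 : n + x.1 ≠ 0 := by omega
          have hlx : q x ∣ n + x.1 :=
            (hlp.dvd_iff_one_le_factorization hnx0).2 (by omega)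
          have hkY := D.kY
          rcases lt_or_gt_of_ne hxi with h | h
          · have h7 : q x ∣ (n + i) - (n + x.1) := Nat.dvd_sub hln hlx
            have h8 := Nat.le_of_dvd (by omega) h7
            omega
          · have h7 : q x ∣ (n + x.1) - (n + i) := Nat.dvd_sub hlx hln
            have h8 := Nat.le_of_dvd (by omega) h7
            omega
      · exfalso
        push Not at hq
        have h9 := G.large l hlp hlY hq i hi
        have h10 : (n + i).factorization l < 2 := by
          by_contra hcon
          push Not at hcon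
          exact h9 ((hlp.pow_dvd_iff_le_factorization hn0).2 hcon)
        have h11 := Nat.le_of_dvd (by omega) hdvd
        have h12 := D.P3 j hj
        omega
  · intro hb
    have hx : (i, j) ∈ prs k r := by
      simp only [prs, Finset.mem_filter, Finset.mem_product, Finset.mem_range]
      exact ⟨⟨hi, hj⟩, hb⟩
    have hex := G.exact (i, j) hx
    have hP3 := D.P3 j hj
    simp only at hex
    have hqp := D.qp (i, j) hx
    refine ⟨q (i, j), ?_, ?_⟩
    · rw [Nat.mem_primeFactors]
      exact ⟨hqp, (hqp.dvd_iff_one_le_factorization hn0).2 (by omega), hn0⟩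
    · rw [hex]
      have hP : P j - 1 + 1 = P j := by omega
      rw [hP]

theorem T_1 : S_T1 := by
  intro k r Y n P q D G i hi i' hi' h
  have hi1 := Finset.mem_Icc.1 hi
  have hi2 := Finset.mem_Icc.1 hi'
  apply Nat.eq_of_testBit_eq
  intro j
  by_cases hj : j < r
  · have h1 := key D G hi hj
    have h2 := key D G hi' hj
    rw [h] at h1
    have h3 := h1.symm.trans h2
    exact Bool.eq_iff_iff.2 h3
  · push Not at hj
    have hkr := D.kr
    have hle : (2 : ℕ) ^ r ≤ 2 ^ j := Nat.pow_le_pow_right (by norm_num) hj
    rw [Nat.testBit_lt_two_pow (by omega), Nat.testBit_lt_two_pow (by omega)]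

end Pool.Agent.H683R3.DR
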