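import Pool.Agent.H683R3.DR.Defs

namespace Pool.Agent.H683R3.DR

open Finset Filter

theorem T_10 : S_T10 := by
  intro n
  obtain ⟨p, hp1, hp⟩ := Nat.exists_infinite_primes (n + 1)
  obtain ⟨q, hq1, hq⟩ := Nat.exists_infinite_primes (p + 1)
  refine ⟨q - n, fun k hk => ?_⟩
  by_contra hlt
  push Not at hlt
  have h := hk (p - n) (by omega) (q - n) (by omega) (by
    rw [Nat.add_sub_cancel' (by omega : n ≤ p), Nat.add_sub_cancel' (by omega : n ≤ q),
      Nat.Prime.divisors hp, Nat.Prime.divisors hq, Finset.card_pair hp.one_lt.ne,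
      Finset.card_pair hq.one_lt.ne])
  omega

end Pool.Agent.H683R3.DR
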