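import Pool.Agent.H683R3.DR.Defs

namespace Pool.Agent.H683R3.DR

open Finset Filter

theorem mem_prs {k r : ℕ} {x : ℕ × ℕ} :
    x ∈ prs k r ↔ ((1 ≤ x.1 ∧ x.1 ≤ k) ∧ x.2 < r) ∧ x.1.testBit x.2 = true := by
  simp [prs]

theorem card_prs_le (k r : ℕ) : (prs k r).card ≤ k * r := by
  refine (Finset.card_filter_le _ _).trans ?_
  simp

/-- exactness of the valuation -/
theorem fact_of_modEq {q P i m : ℕ} (hq : q.Prime) (hP : 1 ≤ P) (hi : i ≤ q ^ (P - 1))
    (h : m ≡ q ^ (P - 1) - i [MOD q ^ P]) : (m + i).factorization q = P - 1 := by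
  have h1 : m + i ≡ q ^ (P - 1) [MOD q ^ P] := by
    have := h.add_right i
    rwa [Nat.sub_add_cancel hi] at this
  have hlt : q ^ (P - 1) < q ^ P := Nat.pow_lt_pow_right hq.one_lt (by omega)
  have hdvd : q ^ (P - 1) ∣ m + i := by
    have h2 : q ^ (P - 1) ∣ q ^ P := pow_dvd_pow _ (by omega)
    exact (h1.dvd_iff h2).2 dvd_rfl
  have hndvd : ¬ q ^ P ∣ m + i := by
    intro h3
    have h4 : q ^ P ∣ q ^ (P - 1) := (h1.dvd_iff dvd_rfl).1 h3
    exact absurd (Nat.le_of_dvd (pow_pos hq.pos _) h4) (by omega)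
  have hne : m + i ≠ 0 := by
    intro h0
    exact hndvd (by rw [h0]; exact dvd_zero _)
  have h5 := (hq.pow_dvd_iff_le_factorization hne).1 hdvd
  have h6 : ¬ P ≤ (m + i).factorization q := fun h7 =>
    hndvd ((hq.pow_dvd_iff_le_factorization hne).2 h7)
  omega

theorem T_2 : S_T2 := by
  intro k r Y P q Q R D hqQ hPR hQ hY hr
  classical
  set s : ℕ × ℕ → ℕ := fun x => q x ^ P x.2 with hs
  set a : ℕ × ℕ → ℕ := fun x => q x ^ (P x.2 - 1) - x.1 with ha
  have hP3 : ∀ x ∈ prs k r, 3 ≤ P x.2 := fun x hx => D.P3 x.2 (mem_prs.1 hx).1.2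
  have hs0 : ∀ x ∈ prs k r, s x ≠ 0 := fun x hx => (pow_pos (D.qp x hx).pos _).ne'
  have hco : Set.Pairwise (prs k r : Set (ℕ × ℕ)) (Function.onFun Nat.Coprime s) := by
    intro x hx y hy hxy
    refine Nat.Coprime.pow _ _ ((Nat.coprime_primes (D.qp x hx) (D.qp y hy)).2 ?_)
    exact fun h => hxy (D.qinj x hx y hy h)
  obtain ⟨z, hz⟩ := Nat.chineseRemainderOfFinset a s (prs k r) hs0 hco
  set M1 := (primorial Y) ^ r with hM1
  set M2 := ∏ x ∈ prs k r, s x with hM2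
  have hM1pos : 0 < M1 := pow_pos (primorial_pos Y) r
  have hM2pos : 0 < M2 := Finset.prod_pos fun x hx => Nat.pos_of_ne_zero (hs0 x hx)
  have hl1 : ∀ l, l.Prime → l ∣ M1 → l ≤ Y := fun l hl h =>
    hl.dvd_primorial_iff.1 (hl.dvd_of_dvd_pow h)
  have hl2 : ∀ l, l.Prime → l ∣ M2 → ∃ x ∈ prs k r, l = q x := by
    intro l hl h
    rw [hM2, hl.prime.dvd_finsetProd_iff] at h
    obtain ⟨x, hx, h⟩ := h
    exact ⟨x, hx, (Nat.prime_dvd_prime_iff_eq hl (D.qp x hx)).1 (hl.dvd_of_dvd_pow h)⟩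
  have hcop : Nat.Coprime M1 M2 := by
    refine Nat.coprime_of_dvd fun l hl h1 h2 => ?_
    obtain ⟨x, hx, rfl⟩ := hl2 l hl h2
    have := D.qY x hx
    have := hl1 _ hl h1
    omega
  obtain ⟨n0, hn0a, hn0b⟩ := Nat.chineseRemainder hcop 0 z
  refine ⟨n0 % (M1 * M2), M1 * M2, Nat.mod_lt _ (Nat.mul_pos hM1pos hM2pos), ?_, ?_, ?_, ?_⟩
  · intro l hl h
    rcases (hl.dvd_mul).1 h with h | h
    · exact Or.inl (hl1 l hl h)
    · exact Or.inr (hl2 l hl h)
  · refine Nat.mul_le_mul ?_ ?_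
    · calc M1 ≤ (4 ^ Y) ^ r := Nat.pow_le_pow_left (primorial_le_four_pow Y) r
        _ = 4 ^ (Y * r) := by rw [pow_mul]
    · have h1 : M2 ≤ (Q ^ R) ^ (prs k r).card := by
        refine Finset.prod_le_pow_card _ _ _ fun x hx => ?_
        calc s x ≤ Q ^ P x.2 := Nat.pow_le_pow_left (hqQ x hx) _
          _ ≤ Q ^ R := Nat.pow_le_pow_right hQ (hPR _ (mem_prs.1 hx).1.2)
      refine h1.trans (Nat.pow_le_pow_right (Nat.one_le_pow _ _ hQ) (card_prs_le k r))
  · have h6 : 6 ≤ primorial Y := by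
      calc 6 = primorial 3 := by decide
        _ ≤ primorial Y := primorial_mono hY
    have h7 : 6 ^ r ≤ M1 := Nat.pow_le_pow_left h6 r
    have h8 : (6 : ℕ) ^ r = 2 ^ r * 3 ^ r := by
      rw [← mul_pow]; norm_num
    have h9 : 9 ≤ 3 ^ r := by
      calc 9 = 3 ^ 2 := by norm_num
        _ ≤ 3 ^ r := Nat.pow_le_pow_right (by norm_num) hr
    have h10 := D.kr
    have h11 : 2 ^ r * 9 ≤ 2 ^ r * 3 ^ r := Nat.mul_le_mul_left _ h9
    have h12 : M1 ≤ M1 * M2 := Nat.le_mul_of_pos_right _ hM2pos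
    omega
  · intro m hm
    have hm' : m ≡ n0 [MOD M1 * M2] := hm.trans (Nat.mod_modEq _ _)
    constructor
    · intro l hl hlY
      have h1 : l ^ r ∣ M1 := pow_dvd_pow_of_dvd (hl.dvd_primorial_iff.2 hlY) r
      have h2 : m ≡ 0 [MOD M1] := (hm'.of_mul_right M2).trans hn0a
      exact h1.trans ((Nat.modEq_zero_iff_dvd).1 h2)
    · intro x hx
      have h3 : s x ∣ M2 := Finset.dvd_prod_of_mem s hx
      have h4 : m ≡ n0 [MOD M2] := hm'.of_mul_left M1
      have h5 : m ≡ a x [MOD s x] :=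
        ((h4.trans hn0b).of_dvd h3).trans (hz x hx)
      have hqx := D.qp x hx
      refine fact_of_modEq hqx (by have := hP3 x hx; omega) ?_ h5
      have h6 : q x ^ 1 ≤ q x ^ (P x.2 - 1) :=
        Nat.pow_le_pow_right hqx.pos (by have := hP3 x hx; omega)
      have h7 := D.qY x hx
      have h8 := D.kY
      have h9 := (mem_prs.1 hx).1.1.2
      rw [pow_one] at h6
      omega

end Pool.Agent.H683R3.DR
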