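import Pool.Agent.H683R3.DR.Defs

namespace Pool.Agent.H683R3.DR.X3

open Finset Filter Pool.Agent.H683R3.DR

theorem T_3 : S_T3 := by
  intro T m a M hm hc
  have key : ((range T).filter (fun t => m ∣ a + t * M)).card ≤ (range (T / m + 1)).card := by
    apply Finset.card_le_card_of_injOn (fun t => t / m)
    · intro t ht
      have ht' := Finset.mem_filter.1 (Finset.mem_coe.1 ht)
      have h1 := Finset.mem_range.1 ht'.1
      exact Finset.mem_coe.2 (Finset.mem_range.2 (Nat.lt_succ_of_le (Nat.div_le_div_right h1.le)))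
    · intro t ht t' ht' h
      have h1 := (Finset.mem_filter.1 (Finset.mem_coe.1 ht)).2
      have h2 := (Finset.mem_filter.1 (Finset.mem_coe.1 ht')).2
      have h3 : a + t * M ≡ a + t' * M [MOD m] :=
        ((Nat.modEq_zero_iff_dvd).2 h1).trans ((Nat.modEq_zero_iff_dvd).2 h2).symm
      have h4 : t * M ≡ t' * M [MOD m] := Nat.ModEq.add_left_cancel' a h3
      have h5 : t ≡ t' [MOD m] := Nat.ModEq.cancel_right_of_coprime hc h4
      have h6 : t / m = t' / m := h
      have h7 : t % m = t' % m := h5
      rw [← Nat.div_add_mod t m, ← Nat.div_add_mod t' m, h6, h7]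
  simpa using key

end Pool.Agent.H683R3.DR.X3
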