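import Pool.Agent.H683R3.DR.Defs

namespace Pool.Agent.H683R3.DR.X382

open Finset Filter

theorem T_4 (h3 : S_T3) : S_T4 := by
  intro k Y M n0 hk hkY hkM hn0
  by_contra hcon
  push Not at hcon
  set T := M ^ 3 with hT
  set B := 2 * M ^ 2 with hB
  have hM : 5 ≤ M := by omega
  have hM4 : 2 * M ≤ 3 * M ^ 4 := by
    have : M ^ 1 ≤ M ^ 4 := Nat.pow_le_pow_right (by omega) (by norm_num)
    rw [pow_one] at this
    omega
  -- the covering
  have hcov : range T ⊆ (Icc 1 k ×ˢ (Ioc Y B).filter (fun l => l.Prime ∧ ¬ l ∣ M)).biUnion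
      (fun x => (range T).filter (fun t => x.2 ^ 2 ∣ (n0 + M + x.1) + t * M)) := by
    intro t ht
    have htT := Finset.mem_range.1 ht
    obtain ⟨l, hl, hYl, hlM, i, hi, hdvd⟩ := hcon t htT
    have hi' := Finset.mem_Icc.1 hi
    rw [Finset.mem_biUnion]
    refine ⟨(i, l), ?_, ?_⟩
    · rw [Finset.mem_product, Finset.mem_filter, Finset.mem_Ioc]
      refine ⟨hi, ⟨hYl, ?_⟩, hl, hlM⟩
      have h1 : l ^ 2 ≤ n0 + (t + 1) * M + i := Nat.le_of_dvd (by omega) hdvd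
      have h2 : (t + 1) * M ≤ M ^ 4 := by
        calc (t + 1) * M ≤ M ^ 3 * M := Nat.mul_le_mul_right _ htT
          _ = M ^ 4 := by ring
      have h3' : l ^ 2 ≤ (2 * M ^ 2) ^ 2 := by
        have : (2 * M ^ 2) ^ 2 = 4 * M ^ 4 := by ring
        omega
      exact (Nat.pow_le_pow_iff_left (by norm_num)).1 h3'
    · rw [Finset.mem_filter]
      refine ⟨ht, ?_⟩
      have : n0 + M + i + t * M = n0 + (t + 1) * M + i := by ring
      simpa only [this] using hdvd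
  have hcard := Finset.card_le_card hcov
  rw [Finset.card_range] at hcard
  have h1 : T ≤ ∑ x ∈ Icc 1 k ×ˢ (Ioc Y B).filter (fun l => l.Prime ∧ ¬ l ∣ M),
      (T / x.2 ^ 2 + 1) := by
    refine hcard.trans (Finset.card_biUnion_le.trans (Finset.sum_le_sum ?_))
    intro x hx
    rw [Finset.mem_product, Finset.mem_filter] at hx
    refine h3 T (x.2 ^ 2) (n0 + M + x.1) M (pow_pos hx.2.2.1.pos 2) ?_
    exact Nat.Coprime.pow_left 2 ((Nat.Prime.coprime_iff_not_dvd hx.2.2.1).2 hx.2.2.2)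
  have h2 : ∑ x ∈ Icc 1 k ×ˢ (Ioc Y B).filter (fun l => l.Prime ∧ ¬ l ∣ M),
      (T / x.2 ^ 2 + 1) ≤ k * ∑ l ∈ Ioc Y B, (T / l ^ 2 + 1) := by
    rw [Finset.sum_product]
    simp only
    rw [Finset.sum_const, Nat.card_Icc, smul_eq_mul, Nat.add_sub_cancel]
    exact Nat.mul_le_mul_left _ (Finset.sum_le_sum_of_subset (Finset.filter_subset _ _))
  have h3' : T ≤ k * ∑ l ∈ Ioc Y B, (T / l ^ 2 + 1) := h1.trans h2
  -- real numbers
  have hTR : (T : ℝ) ≤ k * ∑ l ∈ Ioc Y B, ((T : ℝ) * ((l : ℝ) ^ 2)⁻¹ + 1) := by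
    have : (T : ℝ) ≤ ((k * ∑ l ∈ Ioc Y B, (T / l ^ 2 + 1) : ℕ) : ℝ) := by exact_mod_cast h3'
    refine this.trans ?_
    push_cast
    refine mul_le_mul_of_nonneg_left (Finset.sum_le_sum fun l _ => ?_) (Nat.cast_nonneg _)
    have := @Nat.cast_div_le ℝ _ _ _ T (l ^ 2)
    push_cast at this
    rw [div_eq_mul_inv] at this
    linarith
  have hY0 : Y ≠ 0 := by omega
  have hsum : ∑ l ∈ Ioc Y B, ((l : ℝ) ^ 2)⁻¹ ≤ (Y : ℝ)⁻¹ := by
    by_cases hYB : Y ≤ B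
    · have := @sum_Ioc_inv_sq_le_sub ℝ _ _ _ Y B hY0 hYB
      have hB0 : (0 : ℝ) ≤ (B : ℝ)⁻¹ := by positivity
      linarith
    · rw [Finset.Ioc_eq_empty (by omega), Finset.sum_empty]
      positivity
  have hsum2 : ∑ l ∈ Ioc Y B, ((T : ℝ) * ((l : ℝ) ^ 2)⁻¹ + 1) ≤ T * (Y : ℝ)⁻¹ + B := by
    rw [Finset.sum_add_distrib, ← Finset.mul_sum, Finset.sum_const, Nat.card_Ioc, nsmul_eq_mul,
      mul_one]
    refine add_le_add (mul_le_mul_of_nonneg_left hsum (Nat.cast_nonneg _)) ?_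
    exact_mod_cast Nat.sub_le B Y
  have hTpos : (0 : ℝ) < T := by
    have : 0 < M ^ 3 := pow_pos (by omega) 3
    exact_mod_cast this
  have hYpos : (0 : ℝ) < Y := by
    have : 0 < Y := by omega
    exact_mod_cast this
  have hkY' : (k : ℝ) * (Y : ℝ)⁻¹ ≤ 1 / 4 := by
    rw [← div_eq_mul_inv, div_le_iff₀ hYpos]
    have : ((4 * k : ℕ) : ℝ) ≤ Y := by exact_mod_cast hkY
    push_cast at this
    linarith
  have hkB : (k : ℝ) * B ≤ T / 2 := by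
    have h4 : 4 * k * M ^ 2 ≤ M ^ 3 := by
      calc 4 * k * M ^ 2 ≤ M * M ^ 2 := Nat.mul_le_mul_right _ hkM.le
        _ = M ^ 3 := by ring
    have h5 : ((4 * k * M ^ 2 : ℕ) : ℝ) ≤ ((M ^ 3 : ℕ) : ℝ) := by exact_mod_cast h4
    rw [hB, hT]
    push_cast at h5 ⊢
    linarith
  have hfin : (T : ℝ) ≤ T * (1 / 4) + T / 2 := by
    calc (T : ℝ) ≤ k * ∑ l ∈ Ioc Y B, ((T : ℝ) * ((l : ℝ) ^ 2)⁻¹ + 1) := hTR
      _ ≤ k * (T * (Y : ℝ)⁻¹ + B) := mul_le_mul_of_nonneg_left hsum2 (Nat.cast_nonneg _)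
      _ = T * (k * (Y : ℝ)⁻¹) + k * B := by ring
      _ ≤ T * (1 / 4) + T / 2 := add_le_add (mul_le_mul_of_nonneg_left hkY' hTpos.le) hkB
  linarith

end Pool.Agent.H683R3.DR.X382
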