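import Pool.Agent.H683R3.DR.Defs

namespace Pool.Agent.H683R3.DR

open Finset Filter

theorem T_5 : S_T5 := by
  have h1 := (isLittleO_log_rpow_atTop (show (0 : ℝ) < 1 / 5 by norm_num)).bound
    (show (0 : ℝ) < 1 / 8 by norm_num)
  have h2 := tendsto_natCast_atTop_atTop.eventually h1
  unfold S_T5
  filter_upwards [h2, eventually_ge_atTop 2] with n hn hn2
  have hn2' : (2 : ℝ) ≤ n := by exact_mod_cast hn2
  have hn0 : (0 : ℝ) < n := by linarith
  have hlog : 0 < Real.log n := Real.log_pos (by linarith)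
  rw [Real.norm_of_nonneg hlog.le, Real.norm_of_nonneg (by positivity)] at hn
  refine le_trans ?_ (Chebyshev.pi_ge n)
  rw [le_div_iff₀ hlog]
  have e1 : Real.log (n + 1) ≤ 2 * Real.log n := by
    rw [← Real.log_rpow hn0 2]
    refine Real.log_le_log (by linarith) ?_
    rw [Real.rpow_two]
    nlinarith
  have e2 : (n : ℝ) ^ (1 / 5 : ℝ) ≤ n := by
    calc (n : ℝ) ^ (1 / 5 : ℝ) ≤ (n : ℝ) ^ (1 : ℝ) :=
          Real.rpow_le_rpow_of_exponent_le (by linarith) (by norm_num)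
      _ = n := Real.rpow_one _
  have e3 : (n : ℝ) ^ (4 / 5 : ℝ) * (n : ℝ) ^ (1 / 5 : ℝ) = n := by
    rw [← Real.rpow_add hn0]
    norm_num
  have e4 : (n : ℝ) ^ (4 / 5 : ℝ) * Real.log n ≤ n / 8 := by
    have h0 : (0 : ℝ) ≤ (n : ℝ) ^ (4 / 5 : ℝ) := by positivity
    calc (n : ℝ) ^ (4 / 5 : ℝ) * Real.log n ≤ (n : ℝ) ^ (4 / 5 : ℝ) * (1 / 8 * (n : ℝ) ^ (1 / 5 : ℝ)) :=
          mul_le_mul_of_nonneg_left hn h0
      _ = ((n : ℝ) ^ (4 / 5 : ℝ) * (n : ℝ) ^ (1 / 5 : ℝ)) / 8 := by ring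
      _ = n / 8 := by rw [e3]
  have e5 : (0.69 : ℝ) < Real.log 2 := by
    have := Real.log_two_gt_d9
    linarith
  nlinarith

end Pool.Agent.H683R3.DR
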