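import Pool.Agent.H683R3.DR.Defs

namespace Pool.Agent.H683R3.DR

open Finset Filter

theorem T_6 (h5 : S_T5) : S_T6 := by
  have htend : Tendsto (fun r : ℕ => ⌊(r : ℝ) ^ (3 / 2 : ℝ)⌋₊) atTop atTop :=
    tendsto_nat_floor_atTop.comp ((tendsto_rpow_atTop (by norm_num)).comp tendsto_natCast_atTop_atTop)
  have h5' := htend.eventually h5
  have ht2 : Tendsto (fun r : ℕ => (r : ℝ) ^ (1 / 5 : ℝ)) atTop atTop :=
    (tendsto_rpow_atTop (by norm_num)).comp tendsto_natCast_atTop_atTop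
  filter_upwards [h5', ht2.eventually_ge_atTop 6, eventually_ge_atTop 4] with r hr hr6 hr3
  set X := ⌊(r : ℝ) ^ (3 / 2 : ℝ)⌋₊ with hX
  have hr0 : (0 : ℝ) < r := by
    have : 0 < r := by omega
    exact_mod_cast this
  have hr3' : (4 : ℝ) ≤ r := by exact_mod_cast hr3
  have hpow : (2 : ℝ) ≤ (r : ℝ) ^ (3 / 2 : ℝ) := by
    calc (2 : ℝ) ≤ r := by linarith
      _ = (r : ℝ) ^ (1 : ℝ) := (Real.rpow_one _).symm
      _ ≤ (r : ℝ) ^ (3 / 2 : ℝ) := Real.rpow_le_rpow_of_exponent_le (by linarith) (by norm_num)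
  have hXge : (r : ℝ) ^ (3 / 2 : ℝ) / 2 ≤ X := by
    have := Nat.lt_floor_add_one ((r : ℝ) ^ (3 / 2 : ℝ))
    rw [← hX] at this
    linarith
  have h1 : ((r : ℝ) ^ (3 / 2 : ℝ) / 2) ^ (4 / 5 : ℝ) ≤ (X : ℝ) ^ (4 / 5 : ℝ) :=
    Real.rpow_le_rpow (by positivity) hXge (by norm_num)
  have h2 : (r : ℝ) * (r : ℝ) ^ (1 / 5 : ℝ) / 2 ≤ ((r : ℝ) ^ (3 / 2 : ℝ) / 2) ^ (4 / 5 : ℝ) := by
    rw [Real.div_rpow (by positivity) (by norm_num), ← Real.rpow_mul hr0.le]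
    have e1 : (3 / 2 : ℝ) * (4 / 5) = 1 + 1 / 5 := by norm_num
    rw [e1, Real.rpow_add hr0, Real.rpow_one]
    have e2 : (2 : ℝ) ^ (4 / 5 : ℝ) ≤ 2 := by
      calc (2 : ℝ) ^ (4 / 5 : ℝ) ≤ (2 : ℝ) ^ (1 : ℝ) :=
            Real.rpow_le_rpow_of_exponent_le (by norm_num) (by norm_num)
        _ = 2 := Real.rpow_one _
    have e3 : (0 : ℝ) < (2 : ℝ) ^ (4 / 5 : ℝ) := by positivity
    exact div_le_div_of_nonneg_left (by positivity) e3 e2
  have h3 : (r : ℝ) * 3 ≤ (r : ℝ) * (r : ℝ) ^ (1 / 5 : ℝ) / 2 := by nlinarith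
  have h4 : (2 * r + 4 : ℝ) ≤ (Nat.primeCounting X : ℝ) := by linarith
  have h4' : 2 * r + 4 ≤ Nat.primeCounting X := by exact_mod_cast h4
  set S := (Nat.primesLE X) \ (Finset.range (r + 3)) with hS
  have hcard : r ≤ S.card := by
    have e1 : (Nat.primesLE X).card = Nat.primeCounting X := Nat.primesLE_card_eq_primeCounting X
    have e2 := Finset.le_card_sdiff (Finset.range (r + 3)) (Nat.primesLE X)
    rw [Finset.card_range, ← hS] at e2
    omega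
  obtain ⟨T, hTS, hT⟩ := Finset.exists_subset_card_eq hcard
  have hTm : ∀ (j : ℕ) (hj : j < r), (T.orderEmbOfFin hT ⟨j, hj⟩) ∈ S := fun j hj =>
    hTS (Finset.orderEmbOfFin_mem T hT ⟨j, hj⟩)
  have hSm : ∀ p ∈ S, p.Prime ∧ p ≤ X ∧ r + 3 ≤ p := by
    intro p hp
    rw [hS, Finset.mem_sdiff, Nat.mem_primesLE, Finset.mem_range] at hp
    exact ⟨hp.1.2, hp.1.1, by omega⟩
  refine ⟨fun j => if hj : j < r then T.orderEmbOfFin hT ⟨j, hj⟩ else 0, ?_, ?_, ?_, ?_, ?_⟩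
  · intro j hj
    simp only [hj, dif_pos]
    exact (hSm _ (hTm j hj)).1
  · intro j hj
    simp only [hj, dif_pos]
    have := (hSm _ (hTm j hj)).2.2
    omega
  · intro j hj
    simp only [hj, dif_pos]
    have := (hSm _ (hTm j hj)).2.2
    omega
  · intro j hj j' hj' h
    simp only [hj, hj', dif_pos] at h
    have := (T.orderEmbOfFin hT).injective h
    simpa using this
  · intro j hj
    simp only [hj, dif_pos]
    have h6 := (hSm _ (hTm j hj)).2.1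
    have h7 : (X : ℝ) ≤ (r : ℝ) ^ (3 / 2 : ℝ) := Nat.floor_le (by positivity)
    calc ((T.orderEmbOfFin hT ⟨j, hj⟩ : ℕ) : ℝ) ≤ X := by exact_mod_cast h6
      _ ≤ _ := h7

end Pool.Agent.H683R3.DR
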