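import Pool.Agent.H683R3.DR.Defs

namespace Pool.Agent.H683R3.DR.X294

open Finset Filter

theorem size_bound : ∀ᶠ k : ℕ in atTop, (Nat.size k : ℝ) + 4 ≤ (k : ℝ) ^ (3 / 5 : ℝ) := by
  have h1 : (fun x : ℝ => Real.log x) =o[atTop] (fun x : ℝ => x ^ (3 / 5 : ℝ)) :=
    isLittleO_log_rpow_atTop (by norm_num)
  have h2 : ∀ᶠ x : ℝ in atTop, ‖Real.log x‖ ≤ (1 / 4 : ℝ) * ‖x ^ (3 / 5 : ℝ)‖ :=
    h1.bound (by norm_num)
  have h3 : ∀ᶠ x : ℝ in atTop, (10 : ℝ) ≤ x ^ (3 / 5 : ℝ) :=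
    (tendsto_rpow_atTop (by norm_num : (0 : ℝ) < 3 / 5)).eventually_ge_atTop 10
  have h4 := tendsto_natCast_atTop_atTop (R := ℝ) |>.eventually h2
  have h5 := tendsto_natCast_atTop_atTop (R := ℝ) |>.eventually h3
  filter_upwards [h4, h5, eventually_ge_atTop 1] with k hk4 hk5 hk
  have hkpos : (0 : ℝ) < k := by exact_mod_cast hk
  have hsz : 1 ≤ Nat.size k := by
    rw [Nat.one_le_iff_ne_zero]
    intro h
    rw [Nat.size_eq_zero] at h
    omega
  have hpow : 2 ^ (Nat.size k - 1) ≤ k := by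
    rw [← Nat.lt_size]
    omega
  have hpowR : (2 : ℝ) ^ (Nat.size k - 1) ≤ k := by exact_mod_cast hpow
  have hlog : ((Nat.size k - 1 : ℕ) : ℝ) * Real.log 2 ≤ Real.log k := by
    rw [← Real.log_pow]
    exact Real.log_le_log (by positivity) hpowR
  have hcast : ((Nat.size k - 1 : ℕ) : ℝ) = (Nat.size k : ℝ) - 1 := by
    push_cast [Nat.cast_sub hsz]
    ring
  rw [hcast] at hlog
  have hl2 : (1 / 2 : ℝ) ≤ Real.log 2 := by
    have := Real.log_two_gt_d9
    linarith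
  have hpos : (0 : ℝ) ≤ (k : ℝ) ^ (3 / 5 : ℝ) := by positivity
  rw [Real.norm_eq_abs, Real.norm_eq_abs, abs_of_nonneg hpos] at hk4
  have hlk : Real.log k ≤ (1 / 4 : ℝ) * (k : ℝ) ^ (3 / 5 : ℝ) := (le_abs_self _).trans hk4
  have hs1 : (0 : ℝ) ≤ (Nat.size k : ℝ) - 1 := by
    have : (1 : ℝ) ≤ Nat.size k := by exact_mod_cast hsz
    linarith
  have h6 : ((Nat.size k : ℝ) - 1) * (1 / 2) ≤ ((Nat.size k : ℝ) - 1) * Real.log 2 :=
    mul_le_mul_of_nonneg_left hl2 hs1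
  linarith

theorem T_7 (h5 : S_T5) : S_T7 := by
  unfold S_T7
  have hsq : Tendsto (fun k : ℕ => k ^ 2) atTop atTop := tendsto_pow_atTop (by norm_num)
  have h5' := hsq.eventually h5
  filter_upwards [h5', size_bound, eventually_ge_atTop 1] with k hk5 hks hk
  have hkpos : (0 : ℝ) < k := by exact_mod_cast hk
  -- the set of primes
  set S : Finset ℕ := (Ioc (4 * k) (k ^ 2)).filter Nat.Prime with hS
  have hcardS : Nat.primeCounting (k ^ 2) ≤ 4 * k + S.card := by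
    rw [Nat.primeCounting, Nat.primeCounting', Nat.count_eq_card_filter_range]
    have hsub : (range (k ^ 2 + 1)).filter Nat.Prime ⊆ (Icc 1 (4 * k)) ∪ S := by
      intro p hp
      rw [mem_filter, mem_range] at hp
      rw [mem_union, hS, mem_filter, mem_Icc, mem_Ioc]
      have := hp.2.two_le
      by_cases h : p ≤ 4 * k
      · left; omega
      · right; exact ⟨by omega, hp.2⟩
    calc ((range (k ^ 2 + 1)).filter Nat.Prime).card ≤ ((Icc 1 (4 * k)) ∪ S).card :=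
          card_le_card hsub
      _ ≤ (Icc 1 (4 * k)).card + S.card := card_union_le _ _
      _ = 4 * k + S.card := by rw [Nat.card_Icc]; omega
  have hcardP : (prs k (Nat.size k)).card ≤ k * Nat.size k := by
    calc (prs k (Nat.size k)).card ≤ ((Icc 1 k) ×ˢ (range (Nat.size k))).card :=
          card_filter_le _ _
      _ = k * Nat.size k := by
          rw [card_product, Nat.card_Icc, card_range]
          simp
  have hle : (prs k (Nat.size k)).card ≤ S.card := by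
    have h1 : ((k ^ 2 : ℕ) : ℝ) ^ (4 / 5 : ℝ) = (k : ℝ) * (k : ℝ) ^ (3 / 5 : ℝ) := by
      push_cast
      rw [← Real.rpow_natCast, ← Real.rpow_mul hkpos.le]
      have : (k : ℝ) * (k : ℝ) ^ (3 / 5 : ℝ) = (k : ℝ) ^ (1 : ℝ) * (k : ℝ) ^ (3 / 5 : ℝ) := by
        rw [Real.rpow_one]
      rw [this, ← Real.rpow_add hkpos]
      norm_num
    have h2 : (k : ℝ) * ((Nat.size k : ℝ) + 4) ≤ ((4 * k + S.card : ℕ) : ℝ) := by
      calc (k : ℝ) * ((Nat.size k : ℝ) + 4) ≤ (k : ℝ) * (k : ℝ) ^ (3 / 5 : ℝ) :=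
            mul_le_mul_of_nonneg_left hks hkpos.le
        _ = ((k ^ 2 : ℕ) : ℝ) ^ (4 / 5 : ℝ) := h1.symm
        _ ≤ (Nat.primeCounting (k ^ 2) : ℝ) := hk5
        _ ≤ _ := by exact_mod_cast hcardS
    have h3 : k * (Nat.size k + 4) ≤ 4 * k + S.card := by exact_mod_cast h2
    nlinarith
  obtain ⟨f, hf⟩ : ∃ f : (prs k (Nat.size k)) → S, Function.Injective f := by
    have : Fintype.card (prs k (Nat.size k)) ≤ Fintype.card S := by
      rw [Fintype.card_coe, Fintype.card_coe]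
      exact hle
    obtain ⟨e⟩ := Function.Embedding.nonempty_of_card_le this
    exact ⟨e, e.injective⟩
  classical
  refine ⟨fun x => if h : x ∈ prs k (Nat.size k) then (f ⟨x, h⟩ : ℕ) else 0, ?_, ?_⟩
  · intro x hx
    simp only [hx, dif_pos]
    have hmem : ∀ p : ℕ, p ∈ S → p.Prime ∧ 4 * k < p ∧ p ≤ k ^ 2 := by
      intro p hp
      rw [hS, mem_filter, mem_Ioc] at hp
      exact ⟨hp.2, hp.1.1, hp.1.2⟩
    exact hmem _ (f ⟨x, hx⟩).2
  · intro x hx y hy hxy
    simp only [hx, hy, dif_pos] at hxy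
    have := hf (Subtype.ext hxy)
    exact congrArg Subtype.val this

end Pool.Agent.H683R3.DR.X294
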