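import Pool.Agent.H683R3.DR.Defs

/-!
# T8: size of the modulus
-/

namespace Pool.Agent.H683R3.DR.X8

open Finset Filter Pool.Agent.H683R3.DR

theorem T_8 : S_T8 := by
  unfold S_T8
  have h1 : Tendsto (fun k : ℕ => Real.log (k : ℝ)) atTop atTop :=
    Real.tendsto_log_atTop.comp tendsto_natCast_atTop_atTop
  have h2 : ∀ᶠ k : ℕ in atTop, (97 : ℝ) ≤ Real.log k ^ (1 / 4 : ℝ) :=
    ((tendsto_rpow_atTop (by norm_num : (0 : ℝ) < 1 / 4)).comp h1).eventually_ge_atTop 97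
  have h3 : ∀ᶠ k : ℕ in atTop, (2 : ℝ) ≤ Real.log k := h1.eventually_ge_atTop 2
  filter_upwards [h2, h3, eventually_ge_atTop 2] with k hk1 hk2 hk3 M hM hM1
  have hl2 := Real.log_two_gt_d9
  have hl2' := Real.log_two_lt_d9
  have hkR : (1 : ℝ) ≤ k := by exact_mod_cast (by omega : 1 ≤ k)
  generalize hs : Nat.size k = s at hM
  generalize hx : Real.log (k : ℝ) = x at hk1 hk2 ⊢
  have hx0 : (0 : ℝ) ≤ x := by linarith
  have hs1 : 1 ≤ s := by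
    rw [← hs]
    exact Nat.size_pos.2 (by omega)
  have hsx : (s : ℝ) ≤ 2 * x := by
    have a1 : 2 ^ (s - 1) ≤ k := Nat.lt_size.1 (by rw [hs]; omega)
    have a2 : (2 : ℝ) ^ (s - 1) ≤ k := by exact_mod_cast a1
    have a3 : ((s - 1 : ℕ) : ℝ) * Real.log 2 ≤ x := by
      rw [← Real.log_pow, ← hx]
      exact Real.log_le_log (by positivity) a2
    rw [Nat.cast_sub hs1, Nat.cast_one] at a3
    have a4 : (0 : ℝ) ≤ (s : ℝ) - 1 := by
      have : (1 : ℝ) ≤ s := by exact_mod_cast hs1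
      linarith
    nlinarith
  have h23 : (2 : ℝ) ^ (3 / 2 : ℝ) ≤ 3 := by
    have a1 : ((2 : ℝ) ^ (3 / 2 : ℝ)) ^ 2 = 8 := by
      rw [← Real.rpow_natCast, ← Real.rpow_mul (by norm_num)]
      norm_num
    nlinarith [Real.rpow_nonneg (by norm_num : (0 : ℝ) ≤ 2) (3 / 2)]
  have hfl : (⌊(s : ℝ) ^ (3 / 2 : ℝ)⌋₊ : ℝ) ≤ 3 * x ^ (3 / 2 : ℝ) := by
    calc (⌊(s : ℝ) ^ (3 / 2 : ℝ)⌋₊ : ℝ) ≤ (s : ℝ) ^ (3 / 2 : ℝ) :=
          Nat.floor_le (Real.rpow_nonneg (Nat.cast_nonneg s) _)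
      _ ≤ (2 * x) ^ (3 / 2 : ℝ) :=
          Real.rpow_le_rpow (Nat.cast_nonneg s) hsx (by norm_num)
      _ = (2 : ℝ) ^ (3 / 2 : ℝ) * x ^ (3 / 2 : ℝ) := Real.mul_rpow (by norm_num) hx0
      _ ≤ 3 * x ^ (3 / 2 : ℝ) :=
          mul_le_mul_of_nonneg_right h23 (Real.rpow_nonneg hx0 _)
  generalize ⌊(s : ℝ) ^ (3 / 2 : ℝ)⌋₊ = f at hM hfl
  have hk0 : (0 : ℝ) < k := by linarith
  have hlogM : Real.log M ≤ (4 * k * s : ℝ) * (2 * Real.log 2) + (k * s) * (f * (2 * x)) := by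
    have a1 : (M : ℝ) ≤ (4 : ℝ) ^ (4 * k * s) * (((k : ℝ) ^ 2) ^ f) ^ (k * s) := by
      exact_mod_cast hM
    have a2 : (0 : ℝ) < M := by exact_mod_cast hM1
    calc Real.log M ≤ Real.log ((4 : ℝ) ^ (4 * k * s) * (((k : ℝ) ^ 2) ^ f) ^ (k * s)) :=
          Real.log_le_log a2 a1
      _ = (4 * k * s : ℝ) * (2 * Real.log 2) + (k * s) * (f * (2 * x)) := by
          rw [Real.log_mul (by positivity) (by positivity), Real.log_pow, Real.log_pow,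
            Real.log_pow, Real.log_pow, hx,
            show (4 : ℝ) = 2 ^ 2 by norm_num, Real.log_pow]
          push_cast
          ring
  have hy : x ^ (7 / 2 : ℝ) = x ^ 2 * x ^ (3 / 2 : ℝ) := by
    rw [← Real.rpow_natCast x 2, ← Real.rpow_add (by linarith)]
    norm_num
  have hy1 : x ≤ x ^ (7 / 2 : ℝ) := by
    conv_lhs => rw [← Real.rpow_one x]
    exact Real.rpow_le_rpow_of_exponent_le (by linarith) (by norm_num)
  have hy2 : x ^ (15 / 4 : ℝ) = x ^ (7 / 2 : ℝ) * x ^ (1 / 4 : ℝ) := by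
    rw [← Real.rpow_add (by linarith)]
    norm_num
  have b1 : (4 * k * s : ℝ) * (2 * Real.log 2) ≤ k * (12 * x) := by
    have : (s : ℝ) * Real.log 2 ≤ (2 * x) * 0.7 :=
      mul_le_mul hsx (by linarith) (by linarith) (by linarith)
    nlinarith
  have b2 : ((k : ℝ) * s) * (f * (2 * x)) ≤ k * (12 * x ^ (7 / 2 : ℝ)) := by
    have c1 : (s : ℝ) * (f * (2 * x)) ≤ (2 * x) * ((3 * x ^ (3 / 2 : ℝ)) * (2 * x)) := by
      apply mul_le_mul hsx _ (by positivity) (by linarith)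
      exact mul_le_mul_of_nonneg_right hfl (by linarith)
    have c2 : (2 * x) * ((3 * x ^ (3 / 2 : ℝ)) * (2 * x)) = 12 * x ^ (7 / 2 : ℝ) := by
      rw [hy]; ring
    rw [c2] at c1
    calc ((k : ℝ) * s) * (f * (2 * x)) = k * (s * (f * (2 * x))) := by ring
      _ ≤ k * (12 * x ^ (7 / 2 : ℝ)) := mul_le_mul_of_nonneg_left c1 hk0.le
  have hy0 : (0 : ℝ) ≤ x ^ (7 / 2 : ℝ) := Real.rpow_nonneg hx0 _
  rw [hy2]
  have d1 : 4 * Real.log M + Real.log 2 ≤ k * (97 * x ^ (7 / 2 : ℝ)) := by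
    have e1 : Real.log 2 ≤ k * x := by nlinarith
    have e2 : (k : ℝ) * x ≤ k * x ^ (7 / 2 : ℝ) := mul_le_mul_of_nonneg_left hy1 hk0.le
    nlinarith
  refine d1.trans (mul_le_mul_of_nonneg_left ?_ hk0.le)
  rw [mul_comm]
  exact mul_le_mul_of_nonneg_left hk1 hy0

end Pool.Agent.H683R3.DR.X8
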