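import Pool.Agent.H683R3.DR.Defs

namespace Pool.Agent.H683R3.DR.X9

open Finset Filter

open Pool.Agent.H683R3.DR

theorem T_9 : S_T9 := by
  intro hcore
  unfold S_Core at hcore
  rw [eventually_atTop] at hcore
  obtain ⟨K0, hK0⟩ := hcore
  have hlog : Tendsto (fun N : ℕ => Real.log N) atTop atTop :=
    Real.tendsto_log_atTop.comp tendsto_natCast_atTop_atTop
  have ev1 : ∀ᶠ x : ℝ in atTop, 16 ≤ Real.log x := Real.tendsto_log_atTop.eventually_ge_atTop 16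
  have ev2 : ∀ᶠ x : ℝ in atTop, (4 : ℝ) ≤ x := eventually_ge_atTop 4
  have ev3 : ∀ᶠ x : ℝ in atTop, ‖Real.log x ^ (15 / 4 : ℝ)‖ ≤ 1 / 8 * ‖x ^ (1 : ℝ)‖ :=
    (isLittleO_log_rpow_rpow_atTop (15 / 4 : ℝ) one_pos).def (by norm_num)
  have ev4 : ∀ᶠ x : ℝ in atTop, ‖Real.log x ^ (4 : ℝ)‖ ≤ 1 / ((K0 : ℝ) + 1) * ‖x ^ (1 : ℝ)‖ :=
    (isLittleO_log_rpow_rpow_atTop (4 : ℝ) one_pos).def (by positivity)
  filter_upwards [hlog.eventually ev1, hlog.eventually ev2, hlog.eventually ev3,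
    hlog.eventually ev4, eventually_ge_atTop 1] with N h1 h2 h3 h4 hN
  obtain ⟨x, hx⟩ : ∃ x : ℝ, x = Real.log N := ⟨_, rfl⟩
  obtain ⟨L, hL⟩ : ∃ L : ℝ, L = Real.log x := ⟨_, rfl⟩
  rw [← hx] at h1 h2 h3 h4 ⊢
  rw [← hL] at h1 h3 h4 ⊢
  have hx0 : 0 < x := by linarith
  have hL0 : 0 < L := by linarith
  rw [Real.rpow_one, Real.norm_of_nonneg (Real.rpow_nonneg hL0.le _), Real.norm_of_nonneg hx0.le]
    at h3 h4
  have h4' : L ^ (4 : ℝ) = L ^ 4 := by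
    rw [show (4 : ℝ) = ((4 : ℕ) : ℝ) by norm_num, Real.rpow_natCast]
  rw [h4'] at h4
  have hL4 : 0 < L ^ 4 := by positivity
  have hK0L : (K0 : ℝ) * L ^ 4 ≤ x := by
    have h5 : ((K0 : ℝ) + 1) * L ^ 4 ≤ x := by
      have h6 : (0 : ℝ) < (K0 : ℝ) + 1 := by positivity
      calc ((K0 : ℝ) + 1) * L ^ 4 ≤ ((K0 : ℝ) + 1) * (1 / ((K0 : ℝ) + 1) * x) := by gcongr
        _ = x := by field_simp
    nlinarith
  obtain ⟨k, hk⟩ : ∃ k : ℕ, k = ⌈x / L ^ 4⌉₊ := ⟨_, rfl⟩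
  have hk1 : x / L ^ 4 ≤ k := by rw [hk]; exact Nat.le_ceil _
  have hk2 : (k : ℝ) < x / L ^ 4 + 1 := by rw [hk]; exact Nat.ceil_lt_add_one (by positivity)
  have hkK : K0 ≤ k + 1 := by
    have h5 : (K0 : ℝ) ≤ x / L ^ 4 := by rwa [le_div_iff₀ hL4]
    have h6 : (K0 : ℝ) ≤ k := h5.trans hk1
    have h7 : K0 ≤ k := by exact_mod_cast h6
    omega
  obtain ⟨n', hn1, hn2, hn3⟩ := hK0 (k + 1) hkK
  -- size
  have hL4big : (2 : ℝ) ≤ L ^ 4 := by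
    have : (16 : ℝ) ^ 4 ≤ L ^ 4 := pow_le_pow_left₀ (by norm_num) h1 4
    linarith [this, (by norm_num : (2 : ℝ) ≤ 16 ^ 4)]
  have hxL : x / L ^ 4 ≤ x / 2 := div_le_div_of_nonneg_left hx0.le (by norm_num) hL4big
  have hKx : ((k + 1 : ℕ) : ℝ) ≤ x := by
    push_cast
    linarith
  have hKpos : (0 : ℝ) < ((k + 1 : ℕ) : ℝ) := by positivity
  have hlogK : Real.log ((k + 1 : ℕ) : ℝ) ≤ L := by
    rw [hL]
    exact Real.log_le_log hKpos hKx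
  have hlogK0 : 0 ≤ Real.log ((k + 1 : ℕ) : ℝ) := Real.log_natCast_nonneg _
  have h5 : Real.log ((k + 1 : ℕ) : ℝ) ^ (15 / 4 : ℝ) ≤ L ^ (15 / 4 : ℝ) :=
    Real.rpow_le_rpow hlogK0 hlogK (by norm_num)
  have h6 : (k + 1 : ℕ) * Real.log ((k + 1 : ℕ) : ℝ) ^ (15 / 4 : ℝ) ≤
      (x / L ^ 4 + 2) * L ^ (15 / 4 : ℝ) := by
    apply mul_le_mul _ h5 (Real.rpow_nonneg hlogK0 _) (by positivity)
    push_cast
    linarith
  have h7 : x / L ^ 4 * L ^ (15 / 4 : ℝ) ≤ x / 2 := by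
    have e1 : L ^ 4 = L ^ (15 / 4 : ℝ) * L ^ (1 / 4 : ℝ) := by
      rw [← Real.rpow_add hL0, ← h4']
      norm_num
    have e2 : (2 : ℝ) ≤ L ^ (1 / 4 : ℝ) := by
      calc (2 : ℝ) = (16 : ℝ) ^ (1 / 4 : ℝ) := by
            rw [show (16 : ℝ) = 2 ^ (4 : ℝ) by norm_num, ← Real.rpow_mul (by norm_num)]
            norm_num
        _ ≤ L ^ (1 / 4 : ℝ) := Real.rpow_le_rpow (by norm_num) h1 (by norm_num)
    have e3 : 0 < L ^ (15 / 4 : ℝ) := Real.rpow_pos_of_pos hL0 _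
    have e4 : x / L ^ 4 * L ^ (15 / 4 : ℝ) = x / L ^ (1 / 4 : ℝ) := by
      rw [e1]
      field_simp
    rw [e4]
    exact div_le_div_of_nonneg_left hx0.le (by norm_num) e2
  have hlog2 : Real.log 2 ≤ 1 := by
    have := Real.log_two_lt_d9
    linarith
  have h8 : Real.log n' + Real.log 2 ≤ x := by
    calc Real.log n' + Real.log 2 ≤ (x / L ^ 4 + 2) * L ^ (15 / 4 : ℝ) + Real.log 2 := by
          linarith [hn1.trans h6]
      _ = x / L ^ 4 * L ^ (15 / 4 : ℝ) + 2 * L ^ (15 / 4 : ℝ) + Real.log 2 := by ring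
      _ ≤ x / 2 + 2 * (1 / 8 * x) + 1 := by linarith
      _ ≤ x := by linarith
  refine ⟨n' + 1, k, by omega, ?_, ?_, hk1⟩
  · have hn'1 : (1 : ℝ) ≤ n' := by exact_mod_cast hn2
    have hNpos : (0 : ℝ) < N := by exact_mod_cast hN
    have h9 : Real.log ((n' : ℝ) + 1) ≤ Real.log N := by
      calc Real.log ((n' : ℝ) + 1) ≤ Real.log (n' * 2) := Real.log_le_log (by positivity) (by linarith)
        _ = Real.log n' + Real.log 2 := Real.log_mul (by positivity) (by norm_num)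
        _ ≤ x := h8
        _ = Real.log N := hx
    have h10 : (n' : ℝ) + 1 ≤ N := (Real.log_le_log_iff (by positivity) hNpos).1 h9
    exact_mod_cast h10
  · intro i hi j hj hij
    have e1 : n' + 1 + i = n' + (i + 1) := by ring
    have e2 : n' + 1 + j = n' + (j + 1) := by ring
    rw [e1, e2] at hij
    have := hn3 (i + 1) (Finset.mem_Icc.2 ⟨by omega, by omega⟩) (j + 1)
      (Finset.mem_Icc.2 ⟨by omega, by omega⟩) hij
    omega

end Pool.Agent.H683R3.DR.X9
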