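import Pool.Agent.H683R3.DR.Defs
import Pool.Agent.H683R3.DR.Core
import Pool.Agent.H683R3.DR.Final
import Pool.Agent.H683R3.DR.T1
import Pool.Agent.H683R3.DR.T2
import Pool.Agent.H683R3.DR.T3
import Pool.Agent.H683R3.DR.T4
import Pool.Agent.H683R3.DR.T5
import Pool.Agent.H683R3.DR.T6
import Pool.Agent.H683R3.DR.T7
import Pool.Agent.H683R3.DR.T8
import Pool.Agent.H683R3.DR.T9
import Pool.Agent.H683R3.DR.T10

/-!
# Project DR: the assembled theorem
-/

namespace Pool.Agent.H683R3.DR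

open Finset Filter

theorem main :
    (∀ n, IsGreatest {k | RunDistinct n k} (runLength n)) ∧
    (∀ N, ∀ n ∈ Finset.Icc 1 N, runLength n ≤ maxRun N) ∧
    (∀ N, 1 ≤ N → ∃ n ∈ Finset.Icc 1 N, runLength n = maxRun N) ∧
    ∀ᶠ N : ℕ in atTop, Real.log N / Real.log (Real.log N) ^ 4 ≤ maxRun N :=
  final T_10 (X9.T_9 (core T_1 T_2 (X382.T_4 X3.T_3) (T_6 T_5) (X294.T_7 T_5) (X8.T_8)))

end Pool.Agent.H683R3.DR
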